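import Mathlib
import Pool.Agent.Q24.TC

namespace Pool.Agent.Results.MP_73c65d_al.SphericalTriple

/-- The free group on `x = of 0`, `y = of 1`, `z = of 2`. -/
abbrev F := FreeGroup (Fin 3)

/-- `n` is admissible for `p, q, r, u`: `n ≥ 3` and the alternating group of degree `n` is
generated by `ξ, η, ζ` with `ξ^p = η^q = ζ^r = ξ η ζ u(ξ, η, ζ) = 1`. -/
def Admissible (p q r : ℕ) (u : F) (n : ℕ) : Prop :=
  3 ≤ n ∧ ∃ ξ η ζ : alternatingGroup (Fin n),
    Subgroup.closure {ξ, η, ζ} = ⊤ ∧ ξ ^ p = 1 ∧ η ^ q = 1 ∧ ζ ^ r = 1 ∧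
      ξ * η * ζ * FreeGroup.lift ![ξ, η, ζ] u = 1

/-- The subgroup `⟨x, z⟩` of the free group. -/
def XZ : Subgroup F := Subgroup.closure {FreeGroup.of 0, FreeGroup.of 2}

/-- `u_g = z⁻¹ [y, g] z`, where `[y, g] = y⁻¹ g⁻¹ y g`. -/
def wordU (g : F) : F :=
  (FreeGroup.of 2)⁻¹ * ((FreeGroup.of 1)⁻¹ * g⁻¹ * FreeGroup.of 1 * g) * FreeGroup.of 2

theorem wordU_mem (g : F) : wordU g ∈ commutator F := by
  have h : (FreeGroup.of 1 : F)⁻¹ * g⁻¹ * FreeGroup.of 1 * g ∈ commutator F := by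
    have := Subgroup.commutator_mem_commutator (G := F) (H₁ := ⊤) (H₂ := ⊤)
      (Subgroup.mem_top (FreeGroup.of 1 : F)⁻¹) (Subgroup.mem_top g⁻¹)
    rw [commutatorElement_def, inv_inv, inv_inv] at this
    exact this
  have h2 := (inferInstance : (commutator F).Normal).conj_mem _ h (FreeGroup.of 2)⁻¹
  rw [inv_inv] at h2
  exact h2

section

variable {G : Type*} [Group G]

theorem lift_wordU (ξ η ζ : G) (g : F) :
    ξ * η * ζ * FreeGroup.lift ![ξ, η, ζ] (wordU g) =
      ξ * ((FreeGroup.lift ![ξ, η, ζ] g)⁻¹ * η * FreeGroup.lift ![ξ, η, ζ] g) * ζ := by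
  simp only [wordU, map_mul, map_inv, FreeGroup.lift_apply_of]
  simp only [Matrix.cons_val_zero, Matrix.cons_val_one, Matrix.cons_val]
  group

/-- On `⟨x, z⟩` the value does not depend on the image of `y`. -/
theorem lift_XZ (ξ η η' ζ : G) (g : F) (hg : g ∈ XZ) :
    FreeGroup.lift ![ξ, η, ζ] g = FreeGroup.lift ![ξ, η', ζ] g := by
  unfold XZ at hg
  induction hg using Subgroup.closure_induction with
  | mem x hx =>
    rcases hx with rfl | hx
    · simp
    · rw [Set.mem_singleton_iff] at hx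
      subst hx
      simp
  | one => simp
  | mul x y _ _ hx hy => rw [map_mul, map_mul, hx, hy]
  | inv x _ hx => rw [map_inv, map_inv, hx]

theorem lift_XZ_mem (ξ η ζ : G) (H : Subgroup G) (h1 : ξ ∈ H) (h2 : ζ ∈ H) (g : F)
    (hg : g ∈ XZ) : FreeGroup.lift ![ξ, η, ζ] g ∈ H := by
  unfold XZ at hg
  induction hg using Subgroup.closure_induction with
  | mem x hx =>
    rcases hx with rfl | hx
    · simpa using h1
    · rw [Set.mem_singleton_iff] at hx
      subst hx
      simpa using h2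
  | one => simp
  | mul x y _ _ hx hy => rw [map_mul]; exact H.mul_mem hx hy
  | inv x _ hx => rw [map_inv]; exact H.inv_mem hx

/-- A group generated by `ξ, η, ζ` with `ξ² = η³ = ζ⁵ = ξηζ = 1` has at most 60 elements. -/
theorem card_le (ξ η ζ : G) (h1 : ξ ^ 2 = 1) (h2 : η ^ 3 = 1) (h3 : ζ ^ 5 = 1)
    (h : ξ * η * ζ = 1) (hgen : Subgroup.closure {ξ, η, ζ} = ⊤) : Nat.card G ≤ 60 := by
  have hz : ξ * η = ζ⁻¹ := by rw [eq_inv_iff_mul_eq_one]; exact h
  refine Pool.Agent.Q24.TC.card_le ξ η h1 h2 (by rw [hz, inv_pow, h3, inv_one]) ?_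
  rw [eq_top_iff, ← hgen, Subgroup.closure_le]
  intro x hx
  have hξ : ξ ∈ Subgroup.closure ({ξ, η} : Set G) := Subgroup.subset_closure (by simp)
  have hη : η ∈ Subgroup.closure ({ξ, η} : Set G) := Subgroup.subset_closure (by simp)
  rcases hx with rfl | rfl | hx
  · exact hξ
  · exact hη
  · rw [Set.mem_singleton_iff] at hx
    rw [hx]
    have : ζ = (ξ * η)⁻¹ := by rw [hz, inv_inv]
    rw [this]
    exact Subgroup.inv_mem _ (Subgroup.mul_mem _ hξ hη)

end

theorem closure_conj {G : Type*} [Group G] (ξ η ζ : G) (g : F) (hg : g ∈ XZ)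
    (hgen : Subgroup.closure {ξ, η, ζ} = ⊤) :
    Subgroup.closure {ξ, (FreeGroup.lift ![ξ, η, ζ] g)⁻¹ * η * FreeGroup.lift ![ξ, η, ζ] g, ζ}
      = ⊤ := by
  set γ := FreeGroup.lift ![ξ, η, ζ] g with hγ
  set H := Subgroup.closure {ξ, γ⁻¹ * η * γ, ζ} with hH
  have h1 : ξ ∈ H := Subgroup.subset_closure (by simp)
  have h2 : ζ ∈ H := Subgroup.subset_closure (by simp)
  have h3 : γ⁻¹ * η * γ ∈ H := Subgroup.subset_closure (by simp)
  have h4 : γ ∈ H := lift_XZ_mem ξ η ζ H h1 h2 g hg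
  have h5 : η ∈ H := by
    have := H.mul_mem (H.mul_mem h4 h3) (H.inv_mem h4)
    have e : γ * (γ⁻¹ * η * γ) * γ⁻¹ = η := by group
    rwa [e] at this
  rw [eq_top_iff, ← hgen, Subgroup.closure_le]
  rintro x (rfl | rfl | hx)
  · exact h1
  · exact h5
  · rw [Set.mem_singleton_iff] at hx
    rw [hx]; exact h2

theorem eq_one_of_coprime {G : Type*} [Group G] [Finite G] {x : G} {m : ℕ} (h : x ^ m = 1)
    (hc : Nat.Coprime m (Nat.card G)) : x = 1 := by
  have h1 : orderOf x ∣ m := orderOf_dvd_of_pow_eq_one h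
  have h2 : orderOf x ∣ Nat.card G := orderOf_dvd_natCard x
  have h3 : orderOf x ∣ 1 := by
    rw [← hc]
    exact Nat.dvd_gcd h1 h2
  exact orderOf_eq_one_iff.1 (Nat.dvd_one.1 h3)

/-- Upper bound: only `n = 5`. -/
theorem eq_five (g : F) (hg : g ∈ XZ) (n : ℕ) (h : Admissible 2 3 5 (wordU g) n) : n = 5 := by
  obtain ⟨hn, ξ, η, ζ, hgen, h1, h2, h3, h4⟩ := h
  rw [lift_wordU] at h4
  have hgen' := closure_conj ξ η ζ g hg hgen
  set γ := FreeGroup.lift ![ξ, η, ζ] g with hγ
  have h2' : (γ⁻¹ * η * γ) ^ 3 = 1 := by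
    have e : (γ⁻¹ * η * γ) ^ 3 = γ⁻¹ * η ^ 3 * γ := by
      simp only [pow_succ, pow_zero, one_mul]
      group
    rw [e, h2]
    group
  have hc := card_le ξ (γ⁻¹ * η * γ) ζ h1 h2' h3 h4 hgen'
  have : Nontrivial (Fin n) := ⟨⟨⟨0, by omega⟩, ⟨1, by omega⟩, by simp⟩⟩
  have hcard : 2 * Nat.card (alternatingGroup (Fin n)) = n.factorial := by
    have := two_mul_card_alternatingGroup (α := Fin n)
    rw [Fintype.card_perm, Fintype.card_fin] at this
    rw [Nat.card_eq_fintype_card]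
    exact this
  have hle : n ≤ 5 := by
    by_contra hlt
    have h6 : 6 ≤ n := by omega
    have := Nat.factorial_le h6
    have e6 : Nat.factorial 6 = 720 := rfl
    omega
  -- exclude 3 and 4
  have key : Nat.Coprime 5 (Nat.card (alternatingGroup (Fin n))) → False := by
    intro hcop
    have hζ : ζ = 1 := eq_one_of_coprime h3 hcop
    rw [hζ, mul_one] at h4
    have hη : γ⁻¹ * η * γ = ξ⁻¹ := by rw [eq_inv_iff_mul_eq_one, ← mul_eq_one_comm]; exact h4
    have hξ3 : ξ ^ 3 = 1 := by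
      rw [hη, inv_pow, inv_eq_one] at h2'
      exact h2'
    have hξ : ξ = 1 := by
      have e : ξ ^ 3 = ξ ^ 2 * ξ := pow_succ ξ 2
      rw [e, h1, one_mul] at hξ3
      exact hξ3
    have hη1 : γ⁻¹ * η * γ = 1 := by rw [hη, hξ, inv_one]
    rw [hη1, hζ, hξ] at hgen'
    have htop : (⊤ : Subgroup (alternatingGroup (Fin n))) = ⊥ := by
      rw [← hgen']; simp
    have h1c : Nat.card (alternatingGroup (Fin n)) = 1 := by
      have e1 : Nat.card (⊤ : Subgroup (alternatingGroup (Fin n))) = 1 := by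
        rw [htop, Subgroup.card_bot]
      rwa [Subgroup.card_top] at e1
    have h6 := Nat.factorial_le hn
    have e3 : Nat.factorial 3 = 6 := rfl
    omega
  rcases (by omega : n = 3 ∨ n = 4 ∨ n = 5) with rfl | rfl | rfl
  · exfalso
    have e3 : Nat.factorial 3 = 6 := rfl
    have : Nat.card (alternatingGroup (Fin 3)) = 3 := by omega
    exact key (by rw [this]; decide)
  · exfalso
    have e3 : Nat.factorial 4 = 24 := rfl
    have : Nat.card (alternatingGroup (Fin 4)) = 12 := by omega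
    exact key (by rw [this]; decide)
  · rfl

/-! ### The case `n = 5` -/

def xi0 : alternatingGroup (Fin 5) :=
  ⟨Equiv.swap 0 1 * Equiv.swap 2 3, by
    rw [Equiv.Perm.mem_alternatingGroup]; decide⟩

def eta0 : alternatingGroup (Fin 5) :=
  ⟨Equiv.swap 0 4 * Equiv.swap 4 2, by
    rw [Equiv.Perm.mem_alternatingGroup]; decide⟩

def zeta0 : alternatingGroup (Fin 5) :=
  ⟨finRotate 5, by
    rw [Equiv.Perm.mem_alternatingGroup]; decide⟩

theorem xi0_sq : xi0 ^ 2 = 1 := by
  apply Subtype.ext; decide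

theorem eta0_cube : eta0 ^ 3 = 1 := by
  apply Subtype.ext; decide

theorem zeta0_five : zeta0 ^ 5 = 1 := by
  apply Subtype.ext; decide

theorem prod0 : xi0 * eta0 * zeta0 = 1 := by
  apply Subtype.ext; decide

theorem xi0_ne : xi0 ≠ 1 := by
  intro h
  have := congrArg Subtype.val h
  revert this
  decide

theorem eta0_ne : eta0 ≠ 1 := by
  intro h
  have := congrArg Subtype.val h
  revert this
  decide

theorem zeta0_ne : zeta0 ≠ 1 := by
  intro h
  have := congrArg Subtype.val h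
  revert this
  decide

theorem card5 : Nat.card (alternatingGroup (Fin 5)) = 60 := by
  have h := two_mul_card_alternatingGroup (α := Fin 5)
  rw [Fintype.card_perm, Fintype.card_fin, ← Nat.card_eq_fintype_card] at h
  have e : Nat.factorial 5 = 120 := rfl
  omega

theorem prime_dvd {G : Type*} [Group G] (H : Subgroup G) {x : G} {p : ℕ}
    (hp : p.Prime) (hx : x ^ p = 1) (hne : x ≠ 1) (hxH : x ∈ H) : p ∣ Nat.card H := by
  have : Fact p.Prime := ⟨hp⟩
  have h1 : orderOf x = p := orderOf_eq_prime hx hne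
  rw [← h1]
  exact Subgroup.orderOf_dvd_natCard H hxH

theorem gen0 : Subgroup.closure {xi0, eta0, zeta0} = ⊤ := by
  set H := Subgroup.closure {xi0, eta0, zeta0} with hH
  have h2 : 2 ∣ Nat.card H :=
    prime_dvd H Nat.prime_two xi0_sq xi0_ne (Subgroup.subset_closure (by simp))
  have h3 : 3 ∣ Nat.card H :=
    prime_dvd H Nat.prime_three eta0_cube eta0_ne (Subgroup.subset_closure (by simp))
  have h5 : 5 ∣ Nat.card H :=
    prime_dvd H Nat.prime_five zeta0_five zeta0_ne (Subgroup.subset_closure (by simp))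
  have hmul := H.card_mul_index
  rw [card5] at hmul
  have h30 : 30 ∣ Nat.card H := by omega
  obtain ⟨k, hk⟩ := h30
  have hidx : H.index = 1 ∨ H.index = 2 := by
    rw [hk] at hmul
    have h : k * H.index = 2 := by
      have : 30 * (k * H.index) = 30 * 2 := by rw [← mul_assoc, hmul]
      exact Nat.eq_of_mul_eq_mul_left (by norm_num) this
    have hd : H.index ∣ 2 := ⟨k, by rw [mul_comm]; exact h.symm⟩
    exact (Nat.dvd_prime Nat.prime_two).1 hd
  rcases hidx with h | h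
  · exact Subgroup.index_eq_one.1 h
  · exfalso
    have hn : H.Normal := Subgroup.normal_of_index_eq_two h
    have := alternatingGroup.isSimpleGroup_five
    rcases hn.eq_bot_or_eq_top with hb | ht
    · rw [hb, Subgroup.index_bot, card5] at h
      omega
    · rw [ht, Subgroup.index_top] at h
      omega

theorem five_admissible (g : F) (hg : g ∈ XZ) : Admissible 2 3 5 (wordU g) 5 := by
  set γ := FreeGroup.lift ![xi0, eta0, zeta0] g with hγ
  refine ⟨by norm_num, xi0, γ * eta0 * γ⁻¹, zeta0, ?_, xi0_sq, ?_, zeta0_five, ?_⟩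
  · set H := Subgroup.closure {xi0, γ * eta0 * γ⁻¹, zeta0} with hH
    have h1 : xi0 ∈ H := Subgroup.subset_closure (by simp)
    have h2 : zeta0 ∈ H := Subgroup.subset_closure (by simp)
    have h3 : γ * eta0 * γ⁻¹ ∈ H := Subgroup.subset_closure (by simp)
    have h4 : γ ∈ H := lift_XZ_mem xi0 eta0 zeta0 H h1 h2 g hg
    have h5 : eta0 ∈ H := by
      have := H.mul_mem (H.mul_mem (H.inv_mem h4) h3) h4
      have e : γ⁻¹ * (γ * eta0 * γ⁻¹) * γ = eta0 := by group
      rwa [e] at this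
    rw [eq_top_iff, ← gen0, Subgroup.closure_le]
    rintro x (rfl | rfl | hx)
    · exact h1
    · exact h5
    · rw [Set.mem_singleton_iff] at hx
      rw [hx]; exact h2
  · have e : (γ * eta0 * γ⁻¹) ^ 3 = γ * eta0 ^ 3 * γ⁻¹ := by
      simp only [pow_succ, pow_zero, one_mul]
      group
    rw [e, eta0_cube]
    group
  · rw [lift_wordU, ← lift_XZ xi0 eta0 (γ * eta0 * γ⁻¹) zeta0 g hg, ← hγ]
    have e : γ⁻¹ * (γ * eta0 * γ⁻¹) * γ = eta0 := by group
    rw [e]
    exact prod0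

theorem admissible_iff (g : F) (hg : g ∈ XZ) (n : ℕ) :
    Admissible 2 3 5 (wordU g) n ↔ n = 5 :=
  ⟨eq_five g hg n, fun h => h ▸ five_admissible g hg⟩

/-! ### The family is infinite -/

/-- An affine representation over `ℚ`: `x ↦ (t ↦ t + 1)`, `y ↦ (t ↦ 2t)`, `z ↦ id`. -/
noncomputable def rho : F →* Equiv.Perm ℚ :=
  FreeGroup.lift ![Equiv.addRight (1 : ℚ), Equiv.mulRight₀ (2 : ℚ) (by norm_num), 1]

theorem rho_x_pow (k : ℕ) (t : ℚ) : rho (FreeGroup.of 0 ^ k) t = t + k := by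
  induction k with
  | zero => simp
  | succ k ih =>
    rw [pow_succ', map_mul, Equiv.Perm.mul_apply, ih]
    simp [rho]
    ring

theorem wordU_x_pow_injective :
    Function.Injective (fun k : ℕ => wordU (FreeGroup.of 0 ^ k)) := by
  intro k l h
  have h1 : (FreeGroup.of 0 : F) ^ k * (FreeGroup.of 1 * (FreeGroup.of 2 *
      wordU (FreeGroup.of 0 ^ k) * (FreeGroup.of 2)⁻¹)) =
      FreeGroup.of 1 * FreeGroup.of 0 ^ k := by
    unfold wordU
    group
  have h2 : (FreeGroup.of 0 : F) ^ l * (FreeGroup.of 1 * (FreeGroup.of 2 *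
      wordU (FreeGroup.of 0 ^ l) * (FreeGroup.of 2)⁻¹)) =
      FreeGroup.of 1 * FreeGroup.of 0 ^ l := by
    unfold wordU
    group
  simp only at h
  rw [h] at h1
  have h3 : ((FreeGroup.of 0 : F) ^ k)⁻¹ * (FreeGroup.of 1 * FreeGroup.of 0 ^ k) =
      ((FreeGroup.of 0 : F) ^ l)⁻¹ * (FreeGroup.of 1 * FreeGroup.of 0 ^ l) := by
    rw [← h1, ← h2]
    group
  have h4 : (FreeGroup.of 0 : F) ^ l * (FreeGroup.of 1 * FreeGroup.of 0 ^ k) =
      (FreeGroup.of 0 : F) ^ k * (FreeGroup.of 1 * FreeGroup.of 0 ^ l) := by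
    have h5 : (FreeGroup.of 1 : F) * FreeGroup.of 0 ^ k =
        FreeGroup.of 0 ^ k * (((FreeGroup.of 0 : F) ^ l)⁻¹ *
          (FreeGroup.of 1 * FreeGroup.of 0 ^ l)) := by
      rw [← h3]; group
    rw [h5]
    have hc : (FreeGroup.of 0 : F) ^ l * FreeGroup.of 0 ^ k =
        FreeGroup.of 0 ^ k * FreeGroup.of 0 ^ l := by
      rw [← pow_add, ← pow_add, add_comm]
    rw [← mul_assoc, hc]
    group
  have h6 := congrArg (fun w : F => rho w 0) h4
  simp only [map_mul, Equiv.Perm.mul_apply] at h6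
  rw [rho_x_pow, rho_x_pow, rho_x_pow, rho_x_pow] at h6
  simp [rho] at h6
  have h7 : (k : ℚ) = l := by linarith
  exact_mod_cast h7

/-- Words `u` in the commutator subgroup for which `n = 5` is the only admissible `n` for
the primes `2, 3, 5`. -/
def OnlyFive : Set F :=
  {u | u ∈ commutator F ∧ ∀ n, Admissible 2 3 5 u n ↔ n = 5}

/-- For the primes `2, 3, 5` and each of the words `u = z⁻¹[y,g]z`, `g ∈ ⟨x,z⟩` (in particular
`u = 1`), the degree `5` is the only admissible one; there are infinitely many such words, and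
the assertion of Q2 fails. -/
theorem result :
    (∀ g ∈ XZ, wordU g ∈ OnlyFive) ∧ (1 : F) ∈ OnlyFive ∧
    {u | ∃ g ∈ XZ, u = wordU g}.Infinite ∧
    ¬ (∀ p q r : ℕ, p.Prime → q.Prime → r.Prime → p ≠ q → p ≠ r → q ≠ r →
        ∀ u ∈ commutator F, {n | Admissible p q r u n}.Infinite) := by
  have hx : ∀ k : ℕ, (FreeGroup.of 0 : F) ^ k ∈ XZ := fun k =>
    Subgroup.pow_mem _ (Subgroup.subset_closure (by simp)) k
  refine ⟨fun g hg => ⟨wordU_mem g, admissible_iff g hg⟩, ?_, ?_, ?_⟩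
  · have h1 : wordU 1 = 1 := by
      unfold wordU; group
    have := admissible_iff 1 (XZ.one_mem)
    rw [h1] at this
    exact ⟨Subgroup.one_mem _, this⟩
  · refine Set.Infinite.mono ?_ (Set.infinite_range_of_injective wordU_x_pow_injective)
    rintro _ ⟨k, rfl⟩
    exact ⟨_, hx k, rfl⟩
  · intro h
    have h1 := h 2 3 5 Nat.prime_two Nat.prime_three Nat.prime_five (by norm_num)
      (by norm_num) (by norm_num) (wordU 1) (wordU_mem 1)
    apply h1
    refine Set.Finite.subset (Set.finite_singleton 5) ?_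
    intro n hn
    exact eq_five 1 (XZ.one_mem) n hn

end Pool.Agent.Results.MP_73c65d_al.SphericalTriple
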